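import Pool.Agent.BCS.Stmts

/-! C2D: the integral estimate for the one function metrics (squad BCS) -/

noncomputable section

open scoped ContDiff Topology ComplexConjugate
open Set MeasureTheory Filter

namespace Pool.Agent.BCS.H82

open Pool.Agent.BCS

theorem norm_cp (θ : ℝ) : ‖cp θ‖ = 1 := by
  unfold cp
  exact Complex.norm_exp_ofReal_mul_I θ

theorem cont_cp : Continuous cp := by
  unfold cp
  fun_prop

theorem fderiv_add_const' (f : ℂ → ℝ) (c : ℝ) (z : ℂ) :
    fderiv ℝ (fun z => f z + c) z = fderiv ℝ f z := by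
  exact fderiv_add_const c

theorem dx_add_const (f : ℂ → ℝ) (c : ℝ) : dx (fun z => f z + c) = dx f := by
  funext z
  unfold dx
  rw [fderiv_add_const']

theorem dy_add_const (f : ℂ → ℝ) (c : ℝ) : dy (fun z => f z + c) = dy f := by
  funext z
  unfold dy
  rw [fderiv_add_const']

theorem lap_add_const (f : ℂ → ℝ) (c : ℝ) (z : ℂ) : lap (fun z => f z + c) z = lap f z := by
  unfold lap
  rw [dx_add_const, dy_add_const]

theorem rad_add_const (f : ℂ → ℝ) (c : ℝ) (z : ℂ) : rad (fun z => f z + c) z = rad f z := by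
  unfold rad
  rw [dx_add_const, dy_add_const]

theorem c2d (h1 : T2dStmt) (h2 : AvdStmt) (h3 : MinStmt) (h4 : AviStmt) (h5 : LimStmt) :
    C2dStmt := by
  intro m M φ f χ α β H
  obtain ⟨hmc, hmle, -⟩ := h3 m χ H.hχ
  have hm0 : (0 : ℝ) < m := by exact_mod_cast H.hm
  have hMp : 0 < M := by have := H.hM; linarith
  -- the estimate with a loss
  have key : ∀ ε : ℝ, 0 < ε → (m : ℝ) + 1 < M * Real.exp (-(2 * ((1 + |α|) * ε))) →
      cI (fun z => Real.exp (φ z + α * mu χ z)) ≤
        2 * Real.pi / √((M * Real.exp (-(2 * ((1 + |α|) * ε)))) ^ 2 - ((m : ℝ) + 1) ^ 2) := by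
    intro ε hε hM'
    obtain ⟨qa, hqa, ha⟩ := h5 m χ (2 * α) ε H.hχ hε
    obtain ⟨qb, hqb, hb⟩ := h5 m χ α ε H.hχ hε
    obtain ⟨qc, hqc0, hqc⟩ : ∃ qc : ℝ, qc < 0 ∧ ∀ i, 2 * qc ≤ ∑ j, β j + β i - 2 * α := by
      refine ⟨-(1 + ∑ i, |∑ j, β j + β i - 2 * α|), ?_, ?_⟩
      · have : 0 ≤ ∑ i, |∑ j, β j + β i - 2 * α| := Finset.sum_nonneg fun i _ => abs_nonneg _
        linarith
      · intro i
        have h6 : |∑ j, β j + β i - 2 * α| ≤ ∑ i, |∑ j, β j + β i - 2 * α| :=
          Finset.single_le_sum (f := fun i => |∑ j, β j + β i - 2 * α|)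
            (fun i _ => abs_nonneg _) (Finset.mem_univ i)
        have h7 := neg_abs_le (∑ j, β j + β i - 2 * α)
        have h8 := abs_nonneg (∑ j, β j + β i - 2 * α)
        linarith
    set q := min qa (min qb qc) with hq
    have hq0 : q < 0 := lt_of_le_of_lt (min_le_left _ _) hqa
    have hqA : q ≤ qa := min_le_left _ _
    have hqB : q ≤ qb := (min_le_right _ _).trans (min_le_left _ _)
    have hqC : q ≤ qc := (min_le_right _ _).trans (min_le_right _ _)
    obtain ⟨hv1, hv2⟩ := h4 m M φ f χ α β q H hq0 (fun i => by linarith [hqc i])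
    obtain ⟨hs, -, -, -⟩ := h2 m χ q H.hχ hq0.ne
    set δ := (1 + |α|) * ε with hδ
    have hα0 := abs_nonneg α
    have hdist : ∀ z : ℂ, ‖z‖ ≤ 1 → |α * lm q χ z - α * mu χ z| ≤ |α| * ε := by
      intro z hz
      obtain ⟨k1, k2, -, -⟩ := ha q hqA z hz
      rw [← mul_sub, abs_mul]
      apply mul_le_mul_of_nonneg_left _ hα0
      rw [abs_le]
      constructor <;> linarith
    have hXs : ContDiff ℝ 2 (lm q χ) := hs.of_le (by norm_cast)
    have hφs : ContDiff ℝ 2 φ := H.hφ.of_le (by norm_cast)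
    have hfs : ∀ i, ContDiff ℝ 2 (f i) := fun i => (H.hf i).of_le (by norm_cast)
    have hyp : Hyp2 ((m : ℝ) + 2) (M * Real.exp (-(2 * δ))) (fun z => (φ z + α * lm q χ z) + δ)
        (fun z => ∑ j, (f j z + β j * lm q χ z)) := by
      refine ⟨by linarith, by linarith, ?_, ?_, ?_, ?_⟩
      · exact (hφs.add (contDiff_const.mul hXs)).add contDiff_const
      · exact ContDiff.sum fun j _ => (hfs j).add (contDiff_const.mul hXs)
      · intro z hz
        have k := hv1 z hz
        obtain ⟨-, -, k3, -⟩ := ha q hqA z hz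
        have hd := abs_le.1 (hdist z hz)
        rw [lap_add_const (fun z => φ z + α * lm q χ z) δ z]
        have e1 : ((m : ℝ) + 2 - 1) / (2 * ((m : ℝ) + 2 - 2)) = ((m : ℝ) + 1) / (2 * m) := by
          congr 1 <;> ring
        have e2 : ((m : ℝ) + 2) * ((m : ℝ) + 2 - 1) / 2 = ((m : ℝ) + 2) * (m + 1) / 2 := by ring
        rw [e1, e2]
        have e3 : Real.exp (2 * φ z) * mn q χ (fun z t => Real.exp (2 * α * χ z t)) z ≤
            Real.exp (2 * ((φ z + α * lm q χ z) + δ)) := by
          calc Real.exp (2 * φ z) * mn q χ (fun z t => Real.exp (2 * α * χ z t)) z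
              ≤ Real.exp (2 * φ z) * Real.exp (2 * α * mu χ z + ε) :=
                mul_le_mul_of_nonneg_left k3 (Real.exp_pos _).le
            _ = Real.exp (2 * φ z + (2 * α * mu χ z + ε)) := by rw [← Real.exp_add]
            _ ≤ _ := by
              apply Real.exp_le_exp.2
              rw [hδ]
              nlinarith [hd.1, hd.2]
        have e4 : 0 ≤ ((m : ℝ) + 2) * (m + 1) / 2 := by positivity
        have e5 := mul_le_mul_of_nonneg_left e3 e4
        have e6 : ((m : ℝ) + 2) * (m + 1) / 2 * Real.exp (2 * φ z) *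
            mn q χ (fun z t => Real.exp (2 * α * χ z t)) z =
            ((m : ℝ) + 2) * (m + 1) / 2 * (Real.exp (2 * φ z) *
            mn q χ (fun z t => Real.exp (2 * α * χ z t)) z) := by ring
        rw [e6] at k
        linarith
      · intro z hz
        have k := hv2 z hz
        obtain ⟨-, -, -, k4⟩ := hb q hqB z hz.le
        have hd := abs_le.1 (hdist z hz.le)
        rw [rad_add_const (fun z => φ z + α * lm q χ z) δ z]
        refine le_trans ?_ k
        calc M * Real.exp (-(2 * δ)) * Real.exp ((φ z + α * lm q χ z) + δ)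
            = M * Real.exp (-(2 * δ) + ((φ z + α * lm q χ z) + δ)) := by
              rw [Real.exp_add (-(2 * δ)), mul_assoc]
          _ ≤ M * Real.exp (φ z + (α * mu χ z - ε)) := by
              apply mul_le_mul_of_nonneg_left _ hMp.le
              apply Real.exp_le_exp.2
              rw [hδ]
              nlinarith [hd.1, hd.2]
          _ = M * Real.exp (φ z) * Real.exp (α * mu χ z - ε) := by
              rw [Real.exp_add, mul_assoc]
          _ ≤ _ := mul_le_mul_of_nonneg_left k4 (by positivity)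
    have h9 := h1 _ _ _ _ hyp
    have e7 : (m : ℝ) + 2 - 1 = m + 1 := by ring
    rw [e7] at h9
    refine le_trans ?_ h9
    unfold cI
    apply intervalIntegral.integral_mono_on (by positivity)
    · apply Continuous.intervalIntegrable
      have := H.hφ.continuous
      exact Real.continuous_exp.comp ((this.comp cont_cp).add
        (continuous_const.mul (hmc.comp cont_cp)))
    · apply Continuous.intervalIntegrable
      have := H.hφ.continuous
      exact Real.continuous_exp.comp (((this.comp cont_cp).add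
        (continuous_const.mul (hXs.continuous.comp cont_cp))).add continuous_const)
    · intro θ _
      apply Real.exp_le_exp.2
      have hd := abs_le.1 (hdist (cp θ) (norm_cp θ).le)
      rw [hδ]
      nlinarith [hd.1, hd.2]
  -- the limit
  have hsq : 0 < M ^ 2 - ((m : ℝ) + 1) ^ 2 := by
    have := H.hM
    nlinarith
  have hlim : Tendsto (fun ε : ℝ => 2 * Real.pi /
      √((M * Real.exp (-(2 * ((1 + |α|) * ε)))) ^ 2 - ((m : ℝ) + 1) ^ 2)) (𝓝[>] 0)
      (𝓝 (2 * Real.pi / √(M ^ 2 - ((m : ℝ) + 1) ^ 2))) := by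
    have hc : ContinuousAt (fun ε : ℝ => 2 * Real.pi /
      √((M * Real.exp (-(2 * ((1 + |α|) * ε)))) ^ 2 - ((m : ℝ) + 1) ^ 2)) 0 := by
      apply ContinuousAt.div continuousAt_const
      · fun_prop
      · simp only [mul_zero, neg_zero, Real.exp_zero, mul_one]
        exact (Real.sqrt_pos.2 hsq).ne'
    have h10 := hc.tendsto.mono_left (nhdsWithin_le_nhds (s := Ioi (0 : ℝ)))
    simpa using h10
  refine ge_of_tendsto hlim ?_
  have hev : ∀ᶠ ε : ℝ in 𝓝[>] 0, (m : ℝ) + 1 < M * Real.exp (-(2 * ((1 + |α|) * ε))) := by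
    have hc : ContinuousAt (fun ε : ℝ => M * Real.exp (-(2 * ((1 + |α|) * ε)))) 0 := by fun_prop
    have h11 : (m : ℝ) + 1 < (fun ε : ℝ => M * Real.exp (-(2 * ((1 + |α|) * ε)))) 0 := by
      simpa using H.hM
    exact (hc.eventually (lt_mem_nhds h11)).filter_mono nhdsWithin_le_nhds
  filter_upwards [hev, self_mem_nhdsWithin] with ε h12 h13
  exact key ε h13 h12

end Pool.Agent.BCS.H82
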