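import Pool.Agent.BCS.Stmts

/-! FIN: the main theorem from its parts (squad BCS) -/

noncomputable section

open scoped ContDiff Topology ComplexConjugate
open Set MeasureTheory

namespace Pool.Agent.BCS

open Pool.Agent.SecondKind (Coord pd inv christoffel ricci)
open Pool.Agent.RLim.H58 (dg)

/-- `L₀(M) = 2π / √(M₀² - 1)`, `M₀ = M / (n - 1)`, `n = m + 2` -/
def L0 (m : ℕ) (M : ℝ) : ℝ := 2 * Real.pi / √((M / (m + 1)) ^ 2 - 1)

end Pool.Agent.BCS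

namespace Pool.Agent.BCS.H82

open Pool.Agent.BCS
open Pool.Agent.SecondKind (Coord pd inv christoffel ricci)
open Pool.Agent.RLim.H58 (dg)

theorem L0_div {m : ℕ} {M : ℝ} (_hM : (m : ℝ) + 1 < M) :
    L0 m M / (m + 1) = 2 * Real.pi / √(M ^ 2 - ((m : ℝ) + 1) ^ 2) := by
  have hm : (0 : ℝ) < m + 1 := by positivity
  have h1 : M ^ 2 - ((m : ℝ) + 1) ^ 2 = ((m : ℝ) + 1) ^ 2 * ((M / (m + 1)) ^ 2 - 1) := by
    field_simp
  have h2 : √(M ^ 2 - ((m : ℝ) + 1) ^ 2) = (m + 1) * √((M / (m + 1)) ^ 2 - 1) := by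
    rw [h1, Real.sqrt_mul (by positivity), Real.sqrt_sq hm.le]
  unfold L0
  rw [h2, div_div]
  congr 1
  ring

theorem norm_pr {m : ℕ} (y : Fin (m + 2) → ℝ) : ‖pr y‖ ^ 2 = y 0 ^ 2 + y 1 ^ 2 := by
  rw [← Complex.normSq_eq_norm_sq, Complex.normSq_apply]
  simp only [pr]
  ring

theorem exists_coord {m : ℕ} (z : ℂ) (t : Fin m → ℝ) : ∃ y : Fin (m + 2) → ℝ,
    pr y = z ∧ tl y = t := by
  refine ⟨Fin.cons (α := fun _ => ℝ) z.re (Fin.cons (α := fun _ => ℝ) z.im t), ?_, ?_⟩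
  · apply Complex.ext
    · simp [pr]
    · simp only [pr]
      rfl
  · funext i
    simp [tl]

theorem fin (h1 : C2dStmt) (h2 : CrvStmt) (h3 : SccStmt) (h4 : HmdStmt) (h5 : LenStmt)
    (h6 : MinStmt)
    (m : ℕ) (hm : 1 ≤ m) (M : ℝ) (hM : (m : ℝ) + 1 < M) (φ : ℂ → ℝ) (f : Fin m → ℂ → ℝ)
    (χ : ℂ → (Fin m → ℝ) → ℝ) (α : ℝ) (β : Fin m → ℝ) (hφ : ContDiff ℝ ∞ φ)
    (hf : ∀ i, ContDiff ℝ ∞ (f i)) (hχ : SmP χ) (hαβ : 0 ≤ α + ∑ j, β j)
    (hκ : ∀ i, 0 ≤ 2 * α + ∑ j, β j - β i) (g : Coord (m + 2))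
    (hg : ∀ y i j, g y i j = if i = j then Real.exp (2 * uu φ f χ α β i y) else 0)
    (hSc : ∀ y : Fin (m + 2) → ℝ, y 0 ^ 2 + y 1 ^ 2 ≤ 1 → -(((m : ℝ) + 2) * (m + 1)) ≤ scal g y)
    (hH : ∀ y : Fin (m + 2) → ℝ, y 0 ^ 2 + y 1 ^ 2 = 1 → M ≤ meanCurv g y) :
    (∫ θ in (0 : ℝ)..(2 * Real.pi), Real.exp (φ (cp θ) + α * mu χ (cp θ))) ≤ L0 m M / (m + 1) ∧
    ((∀ θ, tI (fun t => Real.exp (α * χ (cp θ) t)) ≤ (m + 1) * Real.exp (α * mu χ (cp θ))) →
      ∃ γ, IsAdm γ ∧ len g γ ≤ L0 m M) ∧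
    (α ≤ 0 → ∃ γ, IsAdm γ ∧ len g γ ≤ L0 m M / (m + 1)) := by
  obtain rfl : g = dg (uu φ f χ α β) := by
    funext y i j
    rw [hg]
    rfl
  have hE : ∀ z t, Real.exp (2 * φ z + 2 * α * χ z t) = Real.exp (φ z + α * χ z t) ^ 2 := by
    intro z t
    rw [← Real.exp_nat_mul]
    congr 1
    push_cast
    ring
  have H : HypC M φ f χ α β := by
    refine ⟨hm, hM, hφ, hf, hχ, hαβ, hκ, ?_, ?_⟩
    · intro z hz t
      obtain ⟨y, rfl, rfl⟩ := exists_coord z t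
      have h := hSc y (by rw [← norm_pr]; nlinarith [norm_nonneg (pr y)])
      rw [← h3 m φ f χ α β hφ hf hχ.smooth y, mul_comm (-(((m : ℝ) + 2) * (m + 1)))]
      exact mul_le_mul_of_nonneg_left h (Real.exp_pos _).le
    · intro z hz t
      obtain ⟨y, rfl, rfl⟩ := exists_coord z t
      have h := hH y (by rw [← norm_pr, hz]; norm_num)
      rw [h4 m φ f χ α β hφ hf hχ.smooth y hz, Real.exp_neg, ← div_eq_inv_mul,
        le_div_iff₀ (Real.exp_pos _)] at h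
      exact h
  have hmain := h1 m M φ f χ α β H
  rw [← L0_div hM] at hmain
  have hm1 : (0 : ℝ) < m + 1 := by positivity
  have hcp : ∀ z : ℂ, ‖z‖ = 1 → ∃ θ : ℝ, z = cp θ := by
    intro z hz
    refine ⟨Complex.arg z, ?_⟩
    have := Complex.norm_mul_exp_arg_mul_I z
    rw [hz] at this
    simpa [cp] using this.symm
  have hcrv : ∀ K : ℝ, 0 ≤ K → (∀ θ, tI (fun t => Real.exp (α * χ (cp θ) t)) ≤
      K * Real.exp (α * mu χ (cp θ))) →
      ∃ γ, IsAdm γ ∧ len (dg (uu φ f χ α β)) γ ≤ K * (L0 m M / (m + 1)) := by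
    intro K hK hc
    obtain ⟨t, ht⟩ := h2 m φ χ α K hφ hχ (by
      intro z hz
      obtain ⟨θ, rfl⟩ := hcp z hz
      exact hc θ)
    obtain ⟨γ, hγ, -, hl⟩ := h5 m φ f χ α β t
    refine ⟨γ, hγ, ?_⟩
    rw [hl]
    exact ht.trans (mul_le_mul_of_nonneg_left hmain hK)
  refine ⟨hmain, ?_, ?_⟩
  · intro hc
    obtain ⟨γ, hγ, hl⟩ := hcrv (m + 1) hm1.le hc
    refine ⟨γ, hγ, hl.trans (le_of_eq ?_)⟩
    field_simp
  · intro hα
    obtain ⟨γ, hγ, hl⟩ := hcrv 1 zero_le_one (by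
      intro θ
      rw [one_mul]
      have hb : ∀ t, mu χ (cp θ) ≤ χ (cp θ) t := (h6 m χ hχ).2.1 (cp θ)
      have hle : ∀ t, Real.exp (α * χ (cp θ) t) ≤ Real.exp (α * mu χ (cp θ)) := by
        intro t
        apply Real.exp_le_exp.2
        nlinarith [hb t]
      have hvol : (volume (Icc (0 : Fin m → ℝ) 1)).toReal = 1 := by
        rw [Real.volume_Icc_pi_toReal (by intro i; simp)]
        simp
      unfold tI
      calc ∫ t in Icc (0 : Fin m → ℝ) 1, Real.exp (α * χ (cp θ) t)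
          ≤ ∫ t in Icc (0 : Fin m → ℝ) 1, Real.exp (α * mu χ (cp θ)) := by
            apply integral_mono_of_nonneg
            · exact Filter.Eventually.of_forall fun t => (Real.exp_pos _).le
            · exact integrableOn_const (by simp [Real.volume_Icc_pi])
            · exact Filter.Eventually.of_forall hle
        _ = Real.exp (α * mu χ (cp θ)) := by
            rw [setIntegral_const, Measure.real, hvol, one_smul])
    rw [one_mul] at hl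
    exact ⟨γ, hγ, hl⟩

end Pool.Agent.BCS.H82
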