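import Pool.Agent.BCS.Stmts2
import Pool.Agent.Helper82_BCS.FIN

/-! FIN2: the second theorem from its parts (squad BCS) -/

noncomputable section

open scoped ContDiff Topology ComplexConjugate
open Set MeasureTheory

namespace Pool.Agent.BCS.H82

open Pool.Agent.BCS
open Pool.Agent.SecondKind (Coord pd inv christoffel ricci)

theorem fin2 (h1 : T2dStmt) (h3 : AvbStmt) (h4 : BlkStmt) (h5 : HmbStmt)
    (h6 : LnbStmt)
    (m : ℕ) (hm : 1 ≤ m) (M q : ℝ) (hM : (m : ℝ) + 1 < M) (φ : ℂ → ℝ) (h : ℂ → Coord m)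
    (hφ : ContDiff ℝ ∞ φ) (hh : FibM h) (hq : q ≠ 0) (hq2 : 2 * m * q ≤ m + 1)
    (hfib : ∀ z, ‖z‖ ≤ 1 → tI (fun t => Real.exp (q * lvol h z t) * scal (h z) t) ≤ 0)
    (hSc : ∀ y : Fin (m + 2) → ℝ, y 0 ^ 2 + y 1 ^ 2 ≤ 1 →
      -(((m : ℝ) + 2) * (m + 1)) ≤ scal (blk φ h) y)
    (hH : ∀ y : Fin (m + 2) → ℝ, y 0 ^ 2 + y 1 ^ 2 = 1 → M ≤ meanCurv (blk φ h) y) :
    ∃ γ, IsAdm γ ∧ len (blk φ h) γ ≤ L0 m M / (m + 1) := by
  have H : HypB M q φ h := by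
    refine ⟨hm, hM, hφ, hh, hq, hq2, hfib, ?_, ?_⟩
    · intro z hz t
      obtain ⟨y, rfl, rfl⟩ := exists_coord z t
      have h' := hSc y (by rw [← norm_pr]; nlinarith [norm_nonneg (pr y)])
      rw [h4 m φ h hφ hh y] at h'
      exact h'
    · intro z hz t
      obtain ⟨y, rfl, rfl⟩ := exists_coord z t
      have h' := hH y (by rw [← norm_pr, hz]; norm_num)
      rw [h5 m φ h hφ hh y hz] at h'
      exact h'
  have hmain := h1 _ M φ _ (h3 m M q φ h H)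
  have e1 : ((m : ℝ) + 2) - 1 = m + 1 := by ring
  rw [e1, ← L0_div hM] at hmain
  obtain ⟨γ, hγ, -, hl⟩ := h6 m φ h (fun _ => 0)
  exact ⟨γ, hγ, hl.trans_le hmain⟩

end Pool.Agent.BCS.H82
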