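import Pool.Agent.BCS.Stmts3
import Pool.Agent.Helper82_BCS.FIN
import Pool.Agent.Helper82_BCS.C23

/-! FIN3: the third theorem from its parts (squad BCS) -/

noncomputable section

open scoped ContDiff Topology ComplexConjugate
open Set MeasureTheory

namespace Pool.Agent.BCS.H82

open Pool.Agent.BCS
open Pool.Agent.SecondKind (Coord pd inv christoffel ricci)

theorem fin3 (h1 : T2dStmt) (h2 : AvdStmt) (h3 : MinStmt) (h4 : Av3Stmt) (h5 : LimStmt)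
    (h6 : CrvStmt) (h7 : Sc3Stmt) (h8 : Hc3Stmt) (h9 : Ln3Stmt)
    (m : ℕ) (hm : 1 ≤ m) (M : ℝ) (hM : (m : ℝ) + 1 < M) (φ F : ℂ → ℝ) (k : ℂ → Coord m)
    (χ : ℂ → (Fin m → ℝ) → ℝ) (α β : ℝ) (hφ : ContDiff ℝ ∞ φ) (hF : ContDiff ℝ ∞ F)
    (hk : FibM k) (hχ : SmP χ) (hdet : ∀ z t, (Matrix.of (k z t)).det = Real.exp (2 * F z))
    (hneg : ∀ z, ‖z‖ ≤ 1 → ∀ t, scal (k z) t ≤ 0)
    (hαβ : 0 ≤ α + m * β) (hκ : 0 ≤ 2 * α + ((m : ℝ) - 1) * β)
    (hSc : ∀ y : Fin (m + 2) → ℝ, y 0 ^ 2 + y 1 ^ 2 ≤ 1 →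
      -(((m : ℝ) + 2) * (m + 1)) ≤ scal (mt3 φ k χ α β) y)
    (hH : ∀ y : Fin (m + 2) → ℝ, y 0 ^ 2 + y 1 ^ 2 = 1 → M ≤ meanCurv (mt3 φ k χ α β) y) :
    (∫ θ in (0 : ℝ)..(2 * Real.pi), Real.exp (φ (cp θ) + α * mu χ (cp θ))) ≤ L0 m M / (m + 1) ∧
    ((∀ θ, tI (fun t => Real.exp (α * χ (cp θ) t)) ≤ (m + 1) * Real.exp (α * mu χ (cp θ))) →
      ∃ γ, IsAdm γ ∧ len (mt3 φ k χ α β) γ ≤ L0 m M) ∧
    (α ≤ 0 → ∃ γ, IsAdm γ ∧ len (mt3 φ k χ α β) γ ≤ L0 m M / (m + 1)) := by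
  have H : Hyp3 M φ F k χ α β := by
    refine ⟨hm, hM, hφ, hF, hk, hχ, hdet, hneg, hαβ, hκ, ?_, ?_⟩
    · intro z hz t
      obtain ⟨y, rfl, rfl⟩ := exists_coord z t
      have h := hSc y (by rw [← norm_pr]; nlinarith [norm_nonneg (pr y)])
      refine le_trans ?_ (h7 m φ F k χ α β hm hφ hF hk hχ hdet y)
      rw [mul_comm (-(((m : ℝ) + 2) * (m + 1)))]
      exact mul_le_mul_of_nonneg_left h (Real.exp_pos _).le
    · intro z hz t
      obtain ⟨y, rfl, rfl⟩ := exists_coord z t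
      have h := hH y (by rw [← norm_pr, hz]; norm_num)
      rw [h8 m φ F k χ α β hφ hF hk hχ hdet y hz, Real.exp_neg, ← div_eq_inv_mul,
        le_div_iff₀ (Real.exp_pos _)] at h
      exact h
  have hmain := c23 h1 h2 h3 h4 h5 m M φ F k χ α β H
  rw [← L0_div hM] at hmain
  have hm1 : (0 : ℝ) < m + 1 := by positivity
  have hcp : ∀ z : ℂ, ‖z‖ = 1 → ∃ θ : ℝ, z = cp θ := by
    intro z hz
    refine ⟨Complex.arg z, ?_⟩
    have := Complex.norm_mul_exp_arg_mul_I z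
    rw [hz] at this
    simpa [cp] using this.symm
  have hcrv : ∀ K : ℝ, 0 ≤ K → (∀ θ, tI (fun t => Real.exp (α * χ (cp θ) t)) ≤
      K * Real.exp (α * mu χ (cp θ))) →
      ∃ γ, IsAdm γ ∧ len (mt3 φ k χ α β) γ ≤ K * (L0 m M / (m + 1)) := by
    intro K hK hc
    obtain ⟨t, ht⟩ := h6 m φ χ α K hφ hχ (by
      intro z hz
      obtain ⟨θ, rfl⟩ := hcp z hz
      exact hc θ)
    obtain ⟨γ, hγ, -, hl⟩ := h9 m (fun z t => φ z + α * χ z t)
      (fun z => cfm (fun t => β * χ z t) (k z)) t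
    refine ⟨γ, hγ, ?_⟩
    have hl' : len (mt3 φ k χ α β) γ = cI (fun z => Real.exp (φ z + α * χ z t)) := hl
    rw [hl']
    exact ht.trans (mul_le_mul_of_nonneg_left hmain hK)
  refine ⟨hmain, ?_, ?_⟩
  · intro hc
    obtain ⟨γ, hγ, hl⟩ := hcrv (m + 1) hm1.le hc
    refine ⟨γ, hγ, hl.trans (le_of_eq ?_)⟩
    field_simp
  · intro hα
    obtain ⟨γ, hγ, hl⟩ := hcrv 1 zero_le_one (by
      intro θ
      rw [one_mul]
      have hb : ∀ t, mu χ (cp θ) ≤ χ (cp θ) t := (h3 m χ hχ).2.1 (cp θ)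
      have hle : ∀ t, Real.exp (α * χ (cp θ) t) ≤ Real.exp (α * mu χ (cp θ)) := by
        intro t
        apply Real.exp_le_exp.2
        nlinarith [hb t]
      have hvol : (volume (Icc (0 : Fin m → ℝ) 1)).toReal = 1 := by
        rw [Real.volume_Icc_pi_toReal (by intro i; simp)]
        simp
      unfold tI
      calc ∫ t in Icc (0 : Fin m → ℝ) 1, Real.exp (α * χ (cp θ) t)
          ≤ ∫ t in Icc (0 : Fin m → ℝ) 1, Real.exp (α * mu χ (cp θ)) := by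
            apply integral_mono_of_nonneg
            · exact Filter.Eventually.of_forall fun t => (Real.exp_pos _).le
            · exact integrableOn_const (by simp [Real.volume_Icc_pi])
            · exact Filter.Eventually.of_forall hle
        _ = Real.exp (α * mu χ (cp θ)) := by
            rw [setIntegral_const, Measure.real, hvol, one_smul])
    rw [one_mul] at hl
    exact ⟨γ, hγ, hl⟩

end Pool.Agent.BCS.H82
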