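import Pool.Agent.BCS.Stmts4
import Pool.Agent.Helper82_BCS.FIN3

/-! FIN4: neighbourhoods in the C² topology (squad BCS) -/

noncomputable section

open scoped ContDiff Topology ComplexConjugate
open Set MeasureTheory

namespace Pool.Agent.BCS

open Pool.Agent.SecondKind (Coord)

/-- smooth Riemannian metrics on `ℝ² × T^m`, as functions on `ℝ^{m+2}` which are `1`-periodic in the
last `m` variables -/
def MetT {m : ℕ} (g : Coord (m + 2)) : Prop :=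
  Met g ∧ ∀ y (i : Fin m), g (y + Pi.single i.succ.succ 1) = g y

end Pool.Agent.BCS

namespace Pool.Agent.BCS.H82

open Pool.Agent.BCS
open Pool.Agent.SecondKind (Coord pd inv christoffel ricci)

theorem C2Close.mono {n : ℕ} {ε ε' : ℝ} {g g₀ : Coord n} {y : Fin n → ℝ} (h : C2Close ε g g₀ y)
    (hε : ε ≤ ε') : C2Close ε' g g₀ y := fun i j =>
  ⟨(h i j).1.trans hε, fun k => ((h i j).2.1 k).trans hε, fun k l => ((h i j).2.2 k l).trans hε⟩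

theorem nbhd (hS : SctStmt) (hC : MctStmt) (hL : LctStmt) (m : ℕ) (g₀ : Coord (m + 2))
    (h₀ : Met g₀) (M Λ δ : ℝ) (hδ : 0 < δ)
    (hP : (∀ y : Fin (m + 2) → ℝ, y 0 ^ 2 + y 1 ^ 2 ≤ 1 →
        -(((m : ℝ) + 2) * (m + 1)) ≤ scal g₀ y) →
      (∀ y : Fin (m + 2) → ℝ, y 0 ^ 2 + y 1 ^ 2 = 1 → M ≤ meanCurv g₀ y) →
      ∃ γ, IsAdm γ ∧ len g₀ γ ≤ Λ) :
    ∃ ε > 0, ∀ g : Coord (m + 2), Met g →
      (∀ y : Fin (m + 2) → ℝ, y 0 ^ 2 + y 1 ^ 2 ≤ 1 → C2Close ε g g₀ y) →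
      (∀ y : Fin (m + 2) → ℝ, y 0 ^ 2 + y 1 ^ 2 ≤ 1 → -(((m : ℝ) + 2) * (m + 1)) ≤ scal g y) →
      (∀ y : Fin (m + 2) → ℝ, y 0 ^ 2 + y 1 ^ 2 = 1 → M ≤ meanCurv g y) →
      ∃ γ, IsAdm γ ∧ len g γ ≤ Λ + δ := by
  by_cases h1 : ∀ y : Fin (m + 2) → ℝ, y 0 ^ 2 + y 1 ^ 2 ≤ 1 →
      -(((m : ℝ) + 2) * (m + 1)) ≤ scal g₀ y
  · by_cases h2 : ∀ y : Fin (m + 2) → ℝ, y 0 ^ 2 + y 1 ^ 2 = 1 → M ≤ meanCurv g₀ y
    · obtain ⟨γ, hγ, hl⟩ := hP h1 h2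
      obtain ⟨ε, hε, hb⟩ := hL m g₀ γ δ h₀ hγ hδ
      refine ⟨ε, hε, fun g hg hc _ _ => ⟨γ, hγ, ?_⟩⟩
      have h3 := hb g hg (fun y hy i j => (hc y hy.le i j).1)
      linarith
    · push Not at h2
      obtain ⟨y, hy, hlt⟩ := h2
      obtain ⟨ε, hε, hb⟩ := hC m g₀ y ((M - meanCurv g₀ y) / 2) h₀ hy (by linarith)
      refine ⟨ε, hε, fun g hg hc _ h4 => ?_⟩
      exfalso
      have h5 := hb g hg (hc y hy.le)
      have h6 := h4 y hy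
      have h7 := le_abs_self (meanCurv g y - meanCurv g₀ y)
      linarith
  · push Not at h1
    obtain ⟨y, hy, hlt⟩ := h1
    obtain ⟨ε, hε, hb⟩ := hS (m + 2) g₀ y ((-(((m : ℝ) + 2) * (m + 1)) - scal g₀ y) / 2) h₀
      (by linarith)
    refine ⟨ε, hε, fun g hg hc h4 _ => ?_⟩
    exfalso
    have h5 := hb g hg (hc y hy)
    have h6 := h4 y hy
    have h7 := le_abs_self (scal g y - scal g₀ y)
    linarith

theorem fin4 (h1 : T2dStmt) (h2 : AvdStmt) (h3 : MinStmt) (h4 : Av3Stmt) (h5 : LimStmt)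
    (h6 : CrvStmt) (h7 : Sc3Stmt) (h8 : Hc3Stmt) (h9 : Ln3Stmt) (hS : SctStmt) (hC : MctStmt)
    (hL : LctStmt) (hD : MdgStmt) (hcfm : ∀ (m : ℕ) (k : ℂ → Coord m)
      (χ : ℂ → (Fin m → ℝ) → ℝ) (β : ℝ), FibM k → SmP χ →
      FibM (fun z => cfm (fun t => β * χ z t) (k z)))
    (m : ℕ) (hm : 1 ≤ m) (M : ℝ) (hM : (m : ℝ) + 1 < M) (φ F : ℂ → ℝ) (k : ℂ → Coord m)
    (χ : ℂ → (Fin m → ℝ) → ℝ) (α β : ℝ) (hφ : ContDiff ℝ ∞ φ) (hF : ContDiff ℝ ∞ F)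
    (hk : FibM k) (hχ : SmP χ) (hdet : ∀ z t, (Matrix.of (k z t)).det = Real.exp (2 * F z))
    (hneg : ∀ z, ‖z‖ ≤ 1 → ∀ t, scal (k z) t ≤ 0)
    (hαβ : 0 ≤ α + m * β) (hκ : 0 ≤ 2 * α + ((m : ℝ) - 1) * β)
    (K δ : ℝ) (hK : 0 ≤ K) (hδ : 0 < δ)
    (hKα : (α ≤ 0 ∧ 1 ≤ K) ∨ ∀ θ, tI (fun t => Real.exp (α * χ (cp θ) t)) ≤
      K * Real.exp (α * mu χ (cp θ))) :
    ∃ ε > 0, ∀ g : Coord (m + 2), MetT g →
      (∀ y : Fin (m + 2) → ℝ, y 0 ^ 2 + y 1 ^ 2 ≤ 1 → C2Close ε g (mt3 φ k χ α β) y) →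
      (∀ y : Fin (m + 2) → ℝ, y 0 ^ 2 + y 1 ^ 2 ≤ 1 → -(((m : ℝ) + 2) * (m + 1)) ≤ scal g y) →
      (∀ y : Fin (m + 2) → ℝ, y 0 ^ 2 + y 1 ^ 2 = 1 → M ≤ meanCurv g y) →
      ∃ γ, IsAdm γ ∧ len g γ ≤ K * (L0 m M / (m + 1)) + δ := by
  have hmet : Met (mt3 φ k χ α β) := by
    refine hD.2 m _ _ ?_ (hcfm m k χ β hk hχ)
    have e1 : ContDiff ℝ ∞ (fun p : ℂ × (Fin m → ℝ) => φ p.1) := hφ.comp contDiff_fst
    exact e1.add (contDiff_const.mul hχ.smooth)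
  obtain ⟨ε, hε, hb⟩ := nbhd hS hC hL m (mt3 φ k χ α β) hmet M (K * (L0 m M / (m + 1))) δ hδ (by
    intro hSc hH
    obtain ⟨r1, -, r3⟩ := fin3 h1 h2 h3 h4 h5 h6 h7 h8 h9 m hm M hM φ F k χ α β hφ hF hk hχ hdet
      hneg hαβ hκ hSc hH
    have hpos : 0 ≤ L0 m M / (m + 1) := by
      have hm1 : (0 : ℝ) < m + 1 := by positivity
      refine le_trans ?_ r1
      exact intervalIntegral.integral_nonneg (by positivity) fun θ _ => (Real.exp_pos _).le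
    rcases hKα with ⟨hα, hK1⟩ | hc
    · obtain ⟨γ, hγ, hl⟩ := r3 hα
      refine ⟨γ, hγ, hl.trans ?_⟩
      nlinarith
    · obtain ⟨t, ht⟩ := h6 m φ χ α K hφ hχ (by
        intro z hz
        have hz' : ∃ θ : ℝ, z = cp θ := by
          refine ⟨Complex.arg z, ?_⟩
          have := Complex.norm_mul_exp_arg_mul_I z
          rw [hz] at this
          simpa [cp] using this.symm
        obtain ⟨θ, rfl⟩ := hz'
        exact hc θ)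
      obtain ⟨γ, hγ, -, hl⟩ := h9 m (fun z t => φ z + α * χ z t)
        (fun z => cfm (fun t => β * χ z t) (k z)) t
      refine ⟨γ, hγ, ?_⟩
      have hl' : len (mt3 φ k χ α β) γ = cI (fun z => Real.exp (φ z + α * χ z t)) := hl
      rw [hl']
      exact ht.trans (mul_le_mul_of_nonneg_left r1 hK))
  exact ⟨ε, hε, fun g hg => hb g hg.1⟩

end Pool.Agent.BCS.H82
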