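import Pool.Agent.BCS.Stmts3
import Pool.Agent.Helper24_BCS.LEN

/-! LN3 and LNB: the curves `t = const` for block metrics (squad BCS) -/

noncomputable section

open scoped ContDiff Topology ComplexConjugate
open Set MeasureTheory

namespace Pool.Agent.BCS.H82

open Pool.Agent.BCS Pool.Agent.BCS.H24
open Pool.Agent.SecondKind (Coord pd inv christoffel ricci)

theorem ln3 : Ln3Stmt := by
  intro m U h t
  refine ⟨gam t, adm_gam t, fun θ => ⟨pr_gam t θ, tl_gam t θ⟩, ?_⟩
  unfold len cI
  refine intervalIntegral.integral_congr fun θ _ => ?_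
  have e0 : deriv (fun s => gam t s 0) θ = -Real.sin θ := by
    have : (fun s => gam t s 0) = Real.cos := rfl
    rw [this, Real.deriv_cos]
  have e1 : deriv (fun s => gam t s (Fin.succ 0)) θ = Real.cos θ := by
    have : (fun s => gam t s (Fin.succ 0)) = Real.sin := rfl
    rw [this, Real.deriv_sin]
  have e2 : ∀ i : Fin m, deriv (fun s => gam t s i.succ.succ) θ = 0 := by
    intro i
    have : (fun s => gam t s i.succ.succ) = fun _ => t i := rfl
    rw [this, deriv_const]
  have g00 : blkU U h (gam t θ) 0 0 = Real.exp (2 * U (cp θ) t) := by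
    rw [← pr_gam t θ]
    rfl
  have g01 : blkU U h (gam t θ) 0 (Fin.succ 0) = 0 := rfl
  have g10 : blkU U h (gam t θ) (Fin.succ 0) 0 = 0 := rfl
  have g11 : blkU U h (gam t θ) (Fin.succ 0) (Fin.succ 0) = Real.exp (2 * U (cp θ) t) := by
    rw [← pr_gam t θ]
    rfl
  simp only [Fin.sum_univ_succ, e0, e1, e2, g00, g01, g10, g11, mul_zero, zero_mul,
    Finset.sum_const_zero, add_zero, zero_add]
  have h4 : Real.exp (2 * U (cp θ) t) = Real.exp (U (cp θ) t) ^ 2 := by
    rw [two_mul, Real.exp_add, sq]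
  have h2 : Real.exp (2 * U (cp θ) t) * -Real.sin θ * -Real.sin θ
      + Real.exp (2 * U (cp θ) t) * Real.cos θ * Real.cos θ = Real.exp (U (cp θ) t) ^ 2 := by
    have h3 := Real.sin_sq_add_cos_sq θ
    rw [h4]
    linear_combination (Real.exp (U (cp θ) t) ^ 2) * h3
  rw [h2, Real.sqrt_sq (Real.exp_pos _).le]

theorem lnb : LnbStmt := by
  intro m φ h t
  obtain ⟨γ, h1, h2, h3⟩ := ln3 m (fun z _ => φ z) h t
  exact ⟨γ, h1, h2, h3⟩

end Pool.Agent.BCS.H82
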