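import Pool.Agent.BCS.Stmts

/-! PWI: the pointwise inequality (squad BCS) -/

namespace Pool.Agent.BCS.H82

open Pool.Agent.BCS

theorem pwi : PwiStmt := by
  intro n u v ux uy vx vy px py Fx Fy lp lF E e hn hE hEe
  have hn2 : 0 < n - 2 := by linarith
  have hn0 : 0 < n := by linarith
  have key : ((- ((2 * (u * ux + v * vx) - (u ^ 2 + v ^ 2) * px) * E * (px + Fx))
      - ((2 * (u * uy + v * vy) - (u ^ 2 + v ^ 2) * py) * E * (py + Fy))
      - (u ^ 2 + v ^ 2) * E * (lp + lF)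
      + 2 * E * (- px * (u * vy - v * uy) + py * (u * vx - v * ux) + 2 * (ux * vy - vx * uy))
      + (n - 1) * (2 * u * ux - 2 * v * vx - 2 * uy * v - 2 * u * vy))
    + 2 * (n - 1) / n * E *
      ((ux - vy - n / 2 * e * u) ^ 2 + (vx + uy + n / 2 * e * v) ^ 2)) -
      (u ^ 2 + v ^ 2) * E * (-lp - lF - (n - 1) / (2 * (n - 2)) * (Fx ^ 2 + Fy ^ 2)
      + n * (n - 1) / 2 * e ^ 2)
      = E * (((ux + vy) - (u * px + v * py) - (u * Fx + v * Fy) / 2) ^ 2
        + ((vx - uy) - (v * px - u * py) - (v * Fx - u * Fy) / 2) ^ 2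
        + n / (4 * (n - 2)) * ((u * Fx - v * Fy - 2 * (n - 2) / n * (ux - vy)) ^ 2
          + (u * Fy + v * Fx - 2 * (n - 2) / n * (vx + uy)) ^ 2)) := by
    field_simp
    linear_combination (-32 * n * (n - 1) * (n - 2) * (u * ux - u * vy - v * vx - v * uy)) * hEe
  have hpos : 0 ≤ E * (((ux + vy) - (u * px + v * py) - (u * Fx + v * Fy) / 2) ^ 2
        + ((vx - uy) - (v * px - u * py) - (v * Fx - u * Fy) / 2) ^ 2
        + n / (4 * (n - 2)) * ((u * Fx - v * Fy - 2 * (n - 2) / n * (ux - vy)) ^ 2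
          + (u * Fy + v * Fx - 2 * (n - 2) / n * (vx + uy)) ^ 2)) := by positivity
  linarith

end Pool.Agent.BCS.H82
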